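import Pool.Agent.H83.AT.Targets

/-!
Module FH of the board at_modules: pullbacks of constructible sheaves along strict homotopies.
-/

open CategoryTheory CategoryTheory.Limits TopologicalSpace Topology Set Opposite

namespace Pool.Agent.H4.AT

open Pool.Agent.H83.AT Pool.Agent.H96.AL

theorem isBas_map {F : Type} [Field F] {V W : Type} [AddCommGroup V] [Module F V]
    [AddCommGroup W] [Module F W] (f : V →ₗ[F] W) (hf : Function.Bijective f) {r : ℕ}
    {v : Fin r → V} (hv : IsBas (F := F) v) : IsBas (F := F) (fun i => f (v i)) := by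
  refine ⟨hv.1.map' f (LinearMap.ker_eq_bot.2 hf.1), ?_⟩
  have h : Set.range (fun i => f (v i)) = f '' Set.range v := by
    rw [← Set.range_comp]
    rfl
  rw [h, ← Submodule.map_span, hv.2, Submodule.map_top, LinearMap.range_eq_top.2 hf.2]

theorem fh (hPS : T_PS) : T_FH := by
  intro F _ X Z N A hcov hA T H hH w t
  obtain ⟨j, hj⟩ := hcov (H ((w, t) : cyl T))
  obtain ⟨V, r, s, hxV, -, hbas⟩ := hA j _ hj
  refine ⟨{u | ((w, u) : cyl T) ∈ pre H V}, ?_, hxV, ?_⟩
  · exact (pre H V).isOpen.preimage (f := fun u : unitInterval => ((w, u) : cyl T))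
      (by fun_prop)
  intro t' ht' g
  have hB : ∀ (u : unitInterval) (hu : ((w, u) : cyl T) ∈ pre H V), IsBas (F := F)
      (fun i => gm ((pb F H).obj A) (V := pre H V) (x := ((w, u) : cyl T)) hu
        (ps H A V (s i))) := by
    intro u hu
    have hS : H ((w, u) : cyl T) ∈ Z (j + 1) \ Z j :=
      ⟨(hH w t u (j + 1)).1 hj.1, fun h => hj.2 ((hH w t u j).2 h)⟩
    have h := isBas_map (sg H A ((w, u) : cyl T)) (hPS F X (cyl T) H A _) (hbas _ hu hS)
    have e : (fun i => sg H A ((w, u) : cyl T) (gm A hu (s i))) =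
        fun i => gm ((pb F H).obj A) (V := pre H V) (x := ((w, u) : cyl T)) hu
          (ps H A V (s i)) := by
      funext i
      exact sg_gm H A _ hu (s i)
    rw [← e]
    exact h
  have hspan : g ∈ Submodule.span F (Set.range (fun i =>
      gm ((pb F H).obj A) (V := pre H V) (x := ((w, t') : cyl T)) ht' (ps H A V (s i)))) := by
    rw [(hB t' ht').2]
    exact Submodule.mem_top
  rw [Submodule.mem_span_range_iff_exists_fun] at hspan
  obtain ⟨c, hc⟩ := hspan
  have hgm : ∀ (u : unitInterval) (hu : ((w, u) : cyl T) ∈ pre H V),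
      gm ((pb F H).obj A) (V := pre H V) (x := ((w, u) : cyl T)) hu
        (∑ i, c i • ps H A V (s i)) =
      ∑ i, c i • gm ((pb F H).obj A) (V := pre H V) (x := ((w, u) : cyl T)) hu
        (ps H A V (s i)) := by
    intro u hu
    rw [map_sum]
    refine Finset.sum_congr rfl fun i _ => ?_
    rw [map_smul]
  refine ⟨pre H V, ∑ i, c i • ps H A V (s i), fun u hu => hu, fun h => (hgm t' h).trans hc, ?_⟩
  intro hg u hu h h0
  apply hg
  rw [hgm u h] at h0
  have hc0 := Fintype.linearIndependent_iff.1 (hB u h).1 c h0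
  rw [← hc]
  refine Finset.sum_eq_zero fun i _ => ?_
  rw [hc0 i, zero_smul]

end Pool.Agent.H4.AT
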