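import Pool.Agent.H83.AT.Targets

/-!
Module GZ of the board at_modules: classes of positive degree on the constant sheaf are locally
zero.
-/

open CategoryTheory CategoryTheory.Limits TopologicalSpace Topology Set Opposite
open CategoryTheory.Abelian (Ext)
open CategoryTheory.Abelian.Ext (mk₀)

namespace Pool.Agent.H4.AT

open Pool.Agent.H83.AT Pool.Agent.H96.AL

variable {F : Type} [Field F] {X : TopCat.{0}}

lemma ap_cutMap_eU {O V : Opens X} (h : O ≤ V) :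
    ap (cutMap h (𝟙 (one F X))) O (eU F O) = rs (cutSh V (one F X)) h (eU F V) := by
  apply ap_ic_inj V (one F X)
  rw [← ap_comp, cutMap_ic, Category.comp_id, ap_ic_eU, ← rs_ap, ap_ic_eU, rs_rs]

theorem gz_zero (hKU : T_KU) (B J Q : Sh F X) (f : B ⟶ J) (g : J ⟶ Q) (w : f ≫ g = 0)
    (hS : (ShortComplex.mk f g w).ShortExact) (V : Opens X) (x : X) (hx : x ∈ V)
    (φ : cutSh V (one F X) ⟶ Q) :
    ∃ O : Opens X, x ∈ O ∧ ∃ h : O ≤ V, ∃ ψ : cutSh O (one F X) ⟶ J,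
      ψ ≫ g = cutMap h (𝟙 (one F X)) ≫ φ := by
  have hg := ((shortExact_iff f g w).1 hS).2.1 x
  obtain ⟨y, hy⟩ := hg (gm Q hx (ap φ V (eU F V)))
  obtain ⟨U₀, hU₀, u₀, rfl⟩ := exists_gm J y
  rw [← gm_ap] at hy
  obtain ⟨W, hW, h1, h2, e⟩ := gm_eq Q hU₀ hx _ _ hy
  obtain ⟨ψ, hψ⟩ := (hKU F X W J).2 (rs J h1 u₀)
  refine ⟨W, hW, h2, ψ, ?_⟩
  apply (hKU F X W Q).1
  have hψ' : ap ψ W (eU F W) = rs J h1 u₀ := hψ
  show ap (ψ ≫ g) W (eU F W) = ap (cutMap h2 (𝟙 (one F X)) ≫ φ) W (eU F W)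
  rw [ap_comp, ap_comp, hψ', ap_cutMap_eU, ← rs_ap, ← rs_ap, e]

theorem gz (hEI : T_EI) (hKU : T_KU) : T_GZ := by
  intro F _ X B n
  induction n generalizing B with
  | zero =>
    intro V x hx α
    obtain ⟨J, Q, f, g, w, hS, -, e', he⟩ := hEI (Sh F X) (cutSh V (one F X)) B 0 α
    obtain ⟨φ, rfl⟩ := (Ext.mk₀_bijective _ _).2 e'
    obtain ⟨O, hO, h, ψ, hψ⟩ := gz_zero hKU B J Q f g w hS V x hx φ
    refine ⟨O, hO, h, ?_⟩
    have h0 : (mk₀ g).comp hS.extClass (zero_add 1) = 0 := hS.comp_extClass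
    unfold rsE
    rw [he, Ext.mk₀_comp_mk₀_assoc, ← hψ, ← Ext.mk₀_comp_mk₀_assoc, h0, Ext.comp_zero]
  | succ n ih =>
    intro V x hx α
    obtain ⟨J, Q, f, g, w, hS, -, e', he⟩ := hEI (Sh F X) (cutSh V (one F X)) B (n + 1) α
    obtain ⟨O, hO, h, h0⟩ := ih Q V x hx e'
    refine ⟨O, hO, h, ?_⟩
    unfold rsE at h0 ⊢
    rw [he, ← Ext.comp_assoc _ _ _ (zero_add (n + 1)) rfl (by omega), h0, Ext.zero_comp]

end Pool.Agent.H4.AT
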