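import Pool.Agent.H83.AT.Targets

/-!
Module MV of the board at_modules: Mayer-Vietoris short exact sequence.
-/

open CategoryTheory CategoryTheory.Limits TopologicalSpace Topology Set Opposite

namespace Pool.Agent.H4.AT

open Pool.Agent.H83.AT Pool.Agent.H96.AL Pool.Agent.H85.AU

variable {F : Type} [Field F] {X : TopCat.{0}}

lemma ap_add {A B : Sh F X} (f g : A ⟶ B) (V : Opens X) (s : Sec A V) :
    ap (f + g) V s = ap f V s + ap g V s := rfl

lemma ap_neg {A B : Sh F X} (f : A ⟶ B) (V : Opens X) (s : Sec A V) :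
    ap (-f) V s = -ap f V s := rfl

lemma sm_add {A B : Sh F X} (f g : A ⟶ B) (x : X) (s : Stk A x) :
    sm (f + g) x s = sm f x s + sm g x s := by
  obtain ⟨V, hx, s, rfl⟩ := exists_gm _ s
  rw [← gm_ap, ← gm_ap, ← gm_ap, ap_add, map_add]

lemma sm_neg {A B : Sh F X} (f : A ⟶ B) (x : X) (s : Stk A x) :
    sm (-f) x s = -sm f x s := by
  obtain ⟨V, hx, s, rfl⟩ := exists_gm _ s
  rw [← gm_ap, ← gm_ap, ap_neg, map_neg]

lemma sm_cutMap {U V : Opens X} (h : U ≤ V) (A : Sh F X) (x : X) (s : Stk (cutSh U A) x) :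
    sm (ic V A) x (sm (cutMap h (𝟙 A)) x s) = sm (ic U A) x s := by
  rw [← sm_comp, cutMap_ic, Category.comp_id]

theorem mv_aux (U V : Opens X) (A : Sh F X) (h1 : U ⊓ V ≤ U) (h2 : U ⊓ V ≤ V) (h3 : U ≤ U ⊔ V)
    (h4 : V ≤ U ⊔ V)
    (w : biprod.lift (cutMap h1 (𝟙 A)) (-(cutMap h2 (𝟙 A))) ≫
      biprod.desc (cutMap h3 (𝟙 A)) (cutMap h4 (𝟙 A)) = 0) :
    (ShortComplex.mk (biprod.lift (cutMap h1 (𝟙 A)) (-(cutMap h2 (𝟙 A))))
      (biprod.desc (cutMap h3 (𝟙 A)) (cutMap h4 (𝟙 A))) w).ShortExact := by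
  set f : cutSh (U ⊓ V) A ⟶ cutSh U A ⊞ cutSh V A :=
    biprod.lift (cutMap h1 (𝟙 A)) (-(cutMap h2 (𝟙 A))) with hf
  set g : cutSh U A ⊞ cutSh V A ⟶ cutSh (U ⊔ V) A :=
    biprod.desc (cutMap h3 (𝟙 A)) (cutMap h4 (𝟙 A)) with hg
  have hk : ∀ (x : X) (k : Stk (cutSh U A ⊞ cutSh V A) x),
      k = sm biprod.inl x (sm biprod.fst x k) + sm biprod.inr x (sm biprod.snd x k) := by
    intro x k
    rw [← sm_comp, ← sm_comp, ← sm_add, biprod.total, sm_id]
  have hf1 : ∀ (x : X) (r : Stk (cutSh (U ⊓ V) A) x),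
      sm biprod.fst x (sm f x r) = sm (cutMap h1 (𝟙 A)) x r := by
    intro x r
    rw [← sm_comp, hf, biprod.lift_fst]
  have hf2 : ∀ (x : X) (r : Stk (cutSh (U ⊓ V) A) x),
      sm biprod.snd x (sm f x r) = -sm (cutMap h2 (𝟙 A)) x r := by
    intro x r
    rw [← sm_comp, hf, biprod.lift_snd, sm_neg]
  have hg1 : ∀ (x : X) (a : Stk (cutSh U A) x),
      sm g x (sm biprod.inl x a) = sm (cutMap h3 (𝟙 A)) x a := by
    intro x a
    rw [← sm_comp, hg, biprod.inl_desc]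
  have hg2 : ∀ (x : X) (b : Stk (cutSh V A) x),
      sm g x (sm biprod.inr x b) = sm (cutMap h4 (𝟙 A)) x b := by
    intro x b
    rw [← sm_comp, hg, biprod.inr_desc]
  rw [shortExact_iff]
  refine ⟨fun x => ?_, fun x t => ?_, fun x k hk0 => ?_⟩
  · rw [← LinearMap.ker_eq_bot, LinearMap.ker_eq_bot']
    intro r hr
    have e := hf1 x r
    rw [hr, map_zero] at e
    apply sm_ic_inj (U ⊓ V) A x
    rw [map_zero, ← sm_cutMap h1, ← e, map_zero]
  · by_cases hU : x ∈ U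
    · obtain ⟨p, hp⟩ := sm_ic_surj A hU (sm (ic (U ⊔ V) A) x t)
      refine ⟨sm biprod.inl x p, ?_⟩
      rw [hg1]
      apply sm_ic_inj (U ⊔ V) A x
      rw [sm_cutMap, hp]
    · by_cases hV : x ∈ V
      · obtain ⟨p, hp⟩ := sm_ic_surj A hV (sm (ic (U ⊔ V) A) x t)
        refine ⟨sm biprod.inr x p, ?_⟩
        rw [hg2]
        apply sm_ic_inj (U ⊔ V) A x
        rw [sm_cutMap, hp]
      · refine ⟨0, ?_⟩
        rw [map_zero]
        refine (stk_cut_eq_zero A ?_ t).symm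
        rintro (h | h)
        · exact hU h
        · exact hV h
  · obtain ⟨a, ha⟩ : ∃ a, a = sm biprod.fst x k := ⟨_, rfl⟩
    obtain ⟨b, hb⟩ : ∃ b, b = sm biprod.snd x k := ⟨_, rfl⟩
    have hkk := hk x k
    rw [← ha, ← hb] at hkk
    have hab : sm (ic U A) x a + sm (ic V A) x b = 0 := by
      have e := congrArg (sm (ic (U ⊔ V) A) x) hk0
      rw [hkk, map_add, hg1, hg2, map_add, sm_cutMap, sm_cutMap, map_zero] at e
      exact e
    by_cases hU : x ∈ U
    · by_cases hV : x ∈ V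
      · obtain ⟨r, hr⟩ := sm_ic_surj (U := U ⊓ V) A (x := x) ⟨hU, hV⟩ (sm (ic U A) x a)
        refine ⟨r, ?_⟩
        have e1 : sm (cutMap h1 (𝟙 A)) x r = a := by
          apply sm_ic_inj U A x
          rw [sm_cutMap, hr]
        have e2 : -sm (cutMap h2 (𝟙 A)) x r = b := by
          apply sm_ic_inj V A x
          rw [map_neg, sm_cutMap, hr]
          exact neg_eq_of_add_eq_zero_right hab
        rw [hk x (sm f x r), hf1, hf2, e1, e2, ← hkk]
      · have hb0 : b = 0 := stk_cut_eq_zero A hV b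
        rw [hb0, map_zero, add_zero] at hab
        have ha0 : a = 0 := sm_ic_inj U A x (by rw [hab, map_zero])
        exact ⟨0, by rw [hkk, ha0, hb0, map_zero, map_zero, map_zero, add_zero]⟩
    · have ha0 : a = 0 := stk_cut_eq_zero A hU a
      rw [ha0, map_zero, zero_add] at hab
      have hb0 : b = 0 := sm_ic_inj V A x (by rw [hab, map_zero])
      exact ⟨0, by rw [hkk, ha0, hb0, map_zero, map_zero, map_zero, add_zero]⟩

theorem mv : T_MV := by
  intro F _ X U V A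
  exact mv_aux U V A inf_le_left inf_le_right le_sup_left le_sup_right _

end Pool.Agent.H4.AT
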