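import Pool.Agent.H83.AT.Targets

/-!
Module VE of the board at_modules: surjectivity of `Ext^n(A, p_* G) → Ext^n(p^* A, G)`.
-/

open CategoryTheory CategoryTheory.Limits TopologicalSpace Topology Set Opposite
open CategoryTheory.Abelian (Ext)
open CategoryTheory.Abelian.Ext (mk₀)

namespace Pool.Agent.H4.AT

open Pool.Agent.H83.AT Pool.Agent.H96.AL

variable {F : Type} [Field F]

lemma pf_zero {X Y : TopCat.{0}} (f : Y ⟶ X) (A B : Sh F Y) :
    (pf F f).map (0 : A ⟶ B) = 0 := by
  apply hom_ext'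
  intro V s
  rfl

/-- the inductive step -/
theorem ve_step {W : TopCat.{0}} (hp : Exc (pb F (pr W))) (G J Q : Sh F (cyl W)) (f : G ⟶ J)
    (g : J ⟶ Q) (w : f ≫ g = 0) (hS : (ShortComplex.mk f g w).ShortExact)
    (w' : (pf F (pr W)).map f ≫ (pf F (pr W)).map g = 0)
    (hS' : (ShortComplex.mk ((pf F (pr W)).map f) ((pf F (pr W)).map g) w').ShortExact)
    (A : Sh F W) (n : ℕ) (e'' : Ext.{0} A ((pf F (pr W)).obj Q) n) :
    (em hp (e''.comp hS'.extClass rfl)).comp (mk₀ ((pa F (pr W)).counit.app G))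
      (add_zero (n + 1)) =
    ((em hp e'').comp (mk₀ ((pa F (pr W)).counit.app Q)) (add_zero n)).comp hS.extClass rfl := by
  have w'' : (pb F (pr W)).map ((pf F (pr W)).map f) ≫ (pb F (pr W)).map ((pf F (pr W)).map g) =
      0 := by
    rw [← Functor.map_comp, w']
    exact hp.zero _ _
  have h'' := hp.shortExact hS' w''
  have e1 : (em hp (hS'.extClass : Ext.{0} _ _ 1)) = h''.extClass := em_extClass hp hS' w'' h''
  let τ : ShortComplex.mk ((pb F (pr W)).map ((pf F (pr W)).map f))
      ((pb F (pr W)).map ((pf F (pr W)).map g)) w'' ⟶ ShortComplex.mk f g w :=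
    { τ₁ := (pa F (pr W)).counit.app G
      τ₂ := (pa F (pr W)).counit.app J
      τ₃ := (pa F (pr W)).counit.app Q
      comm₁₂ := ((pa F (pr W)).counit.naturality f).symm
      comm₂₃ := ((pa F (pr W)).counit.naturality g).symm }
  have e2 : (h''.extClass : Ext.{0} _ _ 1).comp (mk₀ ((pa F (pr W)).counit.app G))
      (add_zero 1) = (mk₀ ((pa F (pr W)).counit.app Q)).comp hS.extClass (zero_add 1) :=
    ShortComplex.ShortExact.extClass_naturality h'' hS τ
  rw [em_comp, e1, Ext.comp_assoc _ _ _ rfl (add_zero 1) (by omega), e2,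
    Ext.comp_assoc _ _ _ (add_zero n) (zero_add 1) (by omega)]

theorem ve (hEI : T_EI) (hVM : T_VM) (hQE : T_QE) : T_VE := by
  intro F _ W hp G hG A n
  induction n generalizing G with
  | zero =>
    intro β
    obtain ⟨f, rfl⟩ := (Ext.mk₀_bijective _ _).2 β
    refine ⟨mk₀ ((pa F (pr W)).homEquiv A G f), ?_⟩
    have h1 : (pb F (pr W)).map ((pa F (pr W)).homEquiv A G f) ≫ (pa F (pr W)).counit.app G =
        f := by
      have h2 := (pa F (pr W)).homEquiv_counit A G ((pa F (pr W)).homEquiv A G f)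
      rw [Equiv.symm_apply_apply] at h2
      exact h2.symm
    rw [em_mk₀, Ext.mk₀_comp_mk₀, h1]
  | succ n ih =>
    intro β
    obtain ⟨J, Q, f, g, w, hS, hJ, e', he⟩ := hEI (Sh F (cyl W)) _ G n β
    have hQ : PE Q := by
      intro x t c
      obtain ⟨s, hs⟩ := hQE F (cyl W) J Q g hS.epi_g hJ ((x, t) : cyl W) (by trivial) c
      refine ⟨⊤, trivial, rs Q le_top s, fun h => ?_⟩
      rw [gm_rs]
      exact hs
    obtain ⟨e'', he''⟩ := ih Q hQ e'
    have w' : (pf F (pr W)).map f ≫ (pf F (pr W)).map g = 0 := by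
      rw [← Functor.map_comp, w]
      exact pf_zero _ _ _
    have hS' := hVM F W G J Q f g w hS hG w'
    refine ⟨e''.comp hS'.extClass rfl, ?_⟩
    rw [he, he'']
    exact (ve_step hp G J Q f g w hS w' hS' A n e'').symm

end Pool.Agent.H4.AT
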